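import Pool.Agent.R819.Cross
import Pool.Agent.R819.Rosenthal

/-!
# A Rosenthal compact space which embeds into no `S_cru (X × Y)` with Polish `X`, `Y`

All compact subspaces of `S_cru (X × Y)` are metrizable for separable spaces `X`, `Y`, but
there are Rosenthal compact spaces which are not metrizable, for instance the set of all characteristic
functions of points of the real line together with the zero function.
-/

set_option autoImplicit false

open Set Topology TopologicalSpace

namespace Pool.Agent.Results.MP_8a822d_gt.CrossUniform

open Pool.Agent.R819.Cross Pool.Agent.R819.Rosenthal

universe u v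

/-- **There is a Rosenthal compact space `K` which embeds into no `S_cru (X × Y)` with separable
spaces `X`, `Y`, in particular with Polish spaces.** -/
theorem result : ∃ (K : Type) (_ : TopologicalSpace K), RosenthalCompact K ∧
    ∀ (X : Type u) (Y : Type v) [TopologicalSpace X] [TopologicalSpace Y]
      [SeparableSpace X] [SeparableSpace Y],
      ¬ ∃ e : K → Scru X Y, IsEmbedding e := by
  refine ⟨R, inferInstance, R_rosenthal, ?_⟩
  rintro X Y _ _ _ _ ⟨e, he⟩
  have : CompactSpace R := isCompact_iff_compactSpace.1 R_compact
  exact R_not_metrizable (cru e he)

end Pool.Agent.Results.MP_8a822d_gt.CrossUniform
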